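import Mathlib
import Pool.Agent.U447.CDP

/-!
# Chromatic discrepancy of locally `s`-colourable graphs: colourings with `N` colours

Lower bounds for the discrepancy `φ_σ(G)` of a proper colouring `σ` in terms of the number `N` of
colours it uses.
-/

namespace Pool.Agent.Results.MP_ae9baf_co.ByNumberOfColours

open Finset U447.CD Pool.Agent.U447.CDP

/-- **Main theorem.** Let `G` be a (finite, nonempty) locally `s`-colourable graph, `s ≥ 1`, with
chromatic number `χ`, and let `σ` be a proper colouring of `G` with exactly `N` colours.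

1. If `k` steps of `y ↦ y - ⌈y / s⌉` lead from `χ` to a number `z ≥ 2 s - 1`, then
   `φ_σ(G) ≥ ⌊(N + χ - z) / 2⌋ - k`.
2. If `s ≥ 2`, then `φ_σ(G) ≥ χ - s - (s - 2) (N - χ)`. -/
theorem result {V : Type} [Fintype V] [DecidableEq V] [Nonempty V] (G : SimpleGraph V) (s : ℕ)
    (hs : 1 ≤ s) (hG : LocallyColorable G s) (σ : G.Coloring ℕ) :
    (∀ k : ℕ, 2 * s ≤ (step s)^[k] (chr G) + 1 →
      ((univ.image σ).card + (chr G - (step s)^[k] (chr G))) / 2 - k ≤ disc G σ) ∧
    (2 ≤ s → chr G - s - (s - 2) * ((univ.image σ).card - chr G) ≤ disc G σ) := by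
  obtain ⟨hσ, hW, hL, hy⟩ := facts hG σ
  refine ⟨?_, ?_⟩
  · intro k hk
    exact le_disc σ (iter3 hσ hs k _ hW hL (chr G) hy hk)
  · intro hs2
    apply le_disc
    have hc := chi_le_card hσ (univ.image σ)
    refine (Dl_near hσ hs hW hL).mono ?_
    obtain ⟨r, rfl⟩ : ∃ r, s = r + 2 := ⟨s - 2, by omega⟩
    obtain ⟨q, hq⟩ : ∃ q, (univ.image σ).card = chi G (X σ (univ.image σ)) + q :=
      ⟨(univ.image σ).card - chi G (X σ (univ.image σ)), by omega⟩
    obtain ⟨e, he⟩ : ∃ e, chi G (X σ (univ.image σ)) = chr G + e :=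
      ⟨chi G (X σ (univ.image σ)) - chr G, by omega⟩
    rw [hq, he]
    have e1 : chr G + e + q - (chr G + e) = q := by omega
    have e2 : chr G + e + q - chr G = e + q := by omega
    have e3 : r + 2 - 1 = r + 1 := rfl
    have e4 : r + 2 - 2 = r := rfl
    rw [e1, e2, e3, e4]
    have e5 : r * (e + q) = r * e + r * q := by ring
    have e6 : (r + 1) * q = r * q + q := by ring
    rw [e5, e6]
    omega

end Pool.Agent.Results.MP_ae9baf_co.ByNumberOfColours
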