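import Mathlib
import Pool.Agent.U447.CDP

/-!
# Chromatic discrepancy of locally `s`-colourable graphs: the bound for `φ(G)`

The conjecture is `φ(G) ≥ χ(G) - s` for locally `s`-colourable `G`.  We prove it for
`χ(G) ≤ 2 s + 2` (the case `k = 0` below), and in general with an error term.
-/

namespace Pool.Agent.Results.MP_ae9baf_co.IteratedBound

open Finset U447.CD Pool.Agent.U447.CDP

/-- **Main theorem.** Let `G` be a (finite, nonempty) locally `s`-colourable graph, `s ≥ 1`. If `k`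
steps of `y ↦ y - ⌈y / s⌉` lead from `χ(G)` to a number `≤ 2 s + 2`, then
`φ(G) ≥ χ(G) - s - k`. Hence `φ(G) ≥ χ(G) - s - ⌈s log (χ(G) / (2 s + 2))⌉`. -/
theorem result {V : Type} [Fintype V] [DecidableEq V] [Nonempty V] (G : SimpleGraph V) (s : ℕ)
    (hs : 1 ≤ s) (hG : LocallyColorable G s) :
    (∀ k : ℕ, (step s)^[k] (chr G) ≤ 2 * s + 2 → chr G - s - k ≤ phi G) ∧
    ((chr G : ℝ) - s - ⌈(s : ℝ) * Real.log ((chr G : ℝ) / (2 * s + 2))⌉₊ ≤ phi G) := by
  have h3 : ∀ k : ℕ, (step s)^[k] (chr G) ≤ 2 * s + 2 → chr G - s - k ≤ phi G := by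
    intro k hk
    refine le_phi (fun σ => ?_)
    obtain ⟨h1, h2, h3, h4⟩ := facts hG σ
    exact le_disc σ (iter2 h1 hs k _ h2 h3 (chr G) h4 hk)
  refine ⟨h3, ?_⟩
  have h4 := h3 _ (step_log s hs (chr G))
  set k := ⌈(s : ℝ) * Real.log ((chr G : ℝ) / (2 * s + 2))⌉₊ with hk
  have h5 : chr G ≤ phi G + s + k := by omega
  have h6 : (chr G : ℝ) ≤ phi G + s + k := by exact_mod_cast h5
  linarith

end Pool.Agent.Results.MP_ae9baf_co.IteratedBound
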